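import Pool.Agent.R750.HexFinal

/-!
# Locally univalent circle packings of the hexagonal complex

Every locally univalent circle packing for the hexagonal complex in the plane is a regular
hexagonal packing or a Doyle spiral. This is the negated form of Q1.
-/

open R750.Hex

theorem Pool.Agent.Results.MP_5725d1_gt.DoyleRigidity.result
    (R : ℤ × ℤ → ℝ) (z : ℤ × ℤ → ℂ) (hP : IsCirclePacking R z) (hU : LocallyUnivalent R z) :
    ∃ a b c : ℝ, 0 < a ∧ 0 < b ∧ 0 < c ∧ ∀ n m : ℤ, R (n, m) = c * a ^ n * b ^ m :=
  doyle_of_locallyUnivalent hP hU
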